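import Mathlib.LinearAlgebra.Pi
import Mathlib.LinearAlgebra.Prod
import Mathlib.LinearAlgebra.BilinearMap
import Mathlib.LinearAlgebra.FiniteDimensional.Basic
import Mathlib.LinearAlgebra.Dimension.Constructions
import Mathlib.Tactic

/-!
# MP_ba200f_al : an irreducible Jordan supermodule over a Kantor double that is not a Kantor double

Over every field of characteristic different from two, the Grassmann algebra `A = G₁` in one odd
generator `e` with `{e,e} = -1` is a simple unital dot-bracket superalgebra with a Jordan bracket,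
and `Kan(A)` has a unital irreducible Jordan supermodule (of dimension `1|1`) which is not
isomorphic to `Kan(V)` for any unital irreducible dot-bracket supermodule `V` with a Jordan
bracket.

In characteristic `≠ 2` a superspace is the same thing as a vector space with a linear involution
`σ` (`σ x = (-1)^{|x|} x` for homogeneous `x`); superspaces are encoded in this way.
-/

namespace Pool.Agent.Results.MP_ba200f_al.NotKantorDouble

universe u v

section Defs

variable {A : Type*} [AddCommGroup A] {M : Type*} [AddCommGroup M]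

/-- `(-1)^i x` -/
def sg (i : Bool) (x : A) : A := bif i then -x else x

/-- `x` is homogeneous of parity `i` (`false`: even, `true`: odd) with respect to the grading
given by the involution `σ`. -/
def Par (σ : A → A) (i : Bool) (x : A) : Prop := σ x = sg i x

/-- Dot-bracket superalgebra: `σ` is an involution, both products are even, the dot product is
associative and supercommutative, and the bracket is super-anticommutative. -/
structure IsDotBracket (σ : A → A) (dot br : A → A → A) : Prop where
  invol : ∀ x, σ (σ x) = x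
  dot_even : ∀ x y, σ (dot x y) = dot (σ x) (σ y)
  br_even : ∀ x y, σ (br x y) = br (σ x) (σ y)
  assoc : ∀ x y z, dot (dot x y) z = dot x (dot y z)
  comm : ∀ i j x y, Par σ i x → Par σ j y → dot x y = sg (i && j) (dot y x)
  anti : ∀ i j x y, Par σ i x → Par σ j y → br x y = -(sg (i && j) (br y x))

/-- Jordan superalgebra over a field of characteristic not two: the product is even and
supercommutative, satisfies the multilinear super Jordan identity on homogeneous elements, and
the Jordan identity `(x²y)x = x²(yx)` for even `x`.  (Together these say that the Grassmann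
envelope is a Jordan algebra; the last condition is only needed in characteristic three.) -/
structure IsJordanSuper (σ : A → A) (mul : A → A → A) : Prop where
  invol : ∀ x, σ (σ x) = x
  even : ∀ x y, σ (mul x y) = mul (σ x) (σ y)
  comm : ∀ i j x y, Par σ i x → Par σ j y → mul x y = sg (i && j) (mul y x)
  jordan : ∀ i j k l a b c d, Par σ i a → Par σ j b → Par σ k c → Par σ l d →
    mul (mul a b) (mul c d) + sg (j && k) (mul (mul a c) (mul b d)) +
        sg (xor (j && l) (k && l)) (mul (mul a d) (mul b c)) =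
      mul (mul (mul a b) c) d +
        sg (xor (j && k) (xor (j && l) (k && l))) (mul (mul (mul a d) c) b) +
        sg (xor (i && j) (xor (i && k) (xor (i && l) (k && l)))) (mul (mul (mul b d) c) a)
  jordan_even : ∀ x y, Par σ false x → mul (mul (mul x x) y) x = mul (mul x x) (mul y x)

/-- The grading of the Kantor double `A ⊕ Ā` (the parity of the second copy is shifted). -/
def kanσ (σ : A → A) (x : A × A) : A × A := (σ x.1, -σ x.2)

/-- The product of the Kantor double: `a*b = ab`, `a*b̄ = \overline{ab}`,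
`ā*b = (-1)^{|b|} \overline{ab}`, `ā*b̄ = (-1)^{|b|}{a,b}`. -/
def kanMul (σ : A → A) (dot br : A → A → A) (x y : A × A) : A × A :=
  (dot x.1 y.1 + br x.2 (σ y.2), dot x.1 y.2 + dot x.2 (σ y.1))

/-- The action of `Kan(A)` on `Kan(M) = M ⊕ M̄`. -/
def kanAct (σ : A → A) (dact bact : M → A → M) (m : M × M) (x : A × A) : M × M :=
  (dact m.1 x.1 + bact m.2 (σ x.2), dact m.1 x.2 + dact m.2 (σ x.1))

/-- The left action obtained from a right action by the sign rule,
`a·m = (-1)^{|a||m|} m·a` for homogeneous elements. -/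
def flipAct (F : Type*) [Field F] [Module F M] (σ : A → A) (τ : M → M) (act : M → A → M)
    (a : A) (m : M) : M :=
  (2⁻¹ : F) • (act m (a + σ a) + act (τ m) (a - σ a))

/-- The product of the split null extension `A ⊕ M` for a supercommutative product. -/
def extMul (F : Type*) [Field F] [Module F M] (σ : A → A) (mul : A → A → A) (τ : M → M)
    (act : M → A → M) (x y : A × M) : A × M :=
  (mul x.1 y.1, act x.2 y.1 + flipAct F σ τ act x.1 y.2)

/-- The bracket of the split null extension `A ⊕ M` for a super-anticommutative bracket. -/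
def extBr (F : Type*) [Field F] [Module F M] (σ : A → A) (br : A → A → A) (τ : M → M)
    (act : M → A → M) (x y : A × M) : A × M :=
  (br x.1 y.1, act x.2 y.1 - flipAct F σ τ act x.1 y.2)

/-- `f : M × A → M` is bilinear over `F`. -/
def IsBil (F : Type*) [Field F] [Module F A] [Module F M] (f : M → A → M) : Prop :=
  (∀ m, IsLinearMap F (f m)) ∧ ∀ a, IsLinearMap F (fun m => f m a)

/-- The data of a dot-bracket superalgebra with a distinguished element. -/
structure Data (A : Type*) where
  /-- the grading involution -/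
  σ : A → A
  /-- the dot product -/
  dot : A → A → A
  /-- the bracket -/
  br : A → A → A
  /-- the unit of the dot product -/
  one : A

/-- `D` makes `A` a simple unital dot-bracket superalgebra over `F` with a Jordan bracket, i.e.
`Kan(A)` is a Jordan superalgebra. Simple means that `A ≠ 0` and the only ideals of `(A,·)`
(graded or not) closed under bracketing with `A` are `0` and `A`. -/
structure IsSimpleUnital (F : Type*) [Field F] [Module F A] (D : Data A) : Prop where
  σ_lin : IsLinearMap F D.σ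
  dot_bil : IsBil F D.dot
  br_bil : IsBil F D.br
  db : IsDotBracket D.σ D.dot D.br
  jordan : IsJordanSuper (kanσ D.σ) (kanMul D.σ D.dot D.br)
  unit : ∀ x, D.dot D.one x = x ∧ D.dot x D.one = x
  nontriv : Nontrivial A
  simple : ∀ I : Submodule F A, (∀ x ∈ I, ∀ a, D.dot x a ∈ I ∧ D.dot a x ∈ I) →
    (∀ x ∈ I, ∀ a, D.br x a ∈ I ∧ D.br a x ∈ I) → I = ⊥ ∨ I = ⊤

/-- `M` (grading `τ`, right action `act`) is a unital irreducible Jordan supermodule over
`Kan(A)`: the split null extension `Kan(A) ⊕ M` is a Jordan superalgebra, `1` acts as the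
identity, `M ≠ 0`, and the only graded submodules are `0` and `M`. -/
structure IsKanModule (F : Type*) [Field F] [Module F A] [Module F M] (D : Data A) (τ : M → M)
    (act : M → A × A → M) : Prop where
  τ_lin : IsLinearMap F τ
  act_bil : IsBil F act
  jordan : IsJordanSuper (Prod.map (kanσ D.σ) τ)
    (extMul F (kanσ D.σ) (kanMul D.σ D.dot D.br) τ act)
  unit : ∀ m, act m (D.one, 0) = m
  nontriv : Nontrivial M
  irr : ∀ N : Submodule F M, (∀ m ∈ N, τ m ∈ N) → (∀ m ∈ N, ∀ a, act m a ∈ N) → N = ⊥ ∨ N = ⊤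

/-- `M` is a unital irreducible dot-bracket supermodule with a Jordan bracket over the
dot-bracket superalgebra `A`, with actions `m·a = dact m a` and `{m,a} = bact m a`: the split
null extension is a dot-bracket superalgebra whose Kantor double is a Jordan superalgebra, `1`
acts as the identity, `M ≠ 0`, and the only graded submodules are `0` and `M`. -/
structure IsDBModule (F : Type*) [Field F] [Module F A] [Module F M] (D : Data A) (τ : M → M)
    (dact bact : M → A → M) : Prop where
  τ_lin : IsLinearMap F τ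
  dact_bil : IsBil F dact
  bact_bil : IsBil F bact
  db : IsDotBracket (Prod.map D.σ τ) (extMul F D.σ D.dot τ dact) (extBr F D.σ D.br τ bact)
  jordan : IsJordanSuper (kanσ (Prod.map D.σ τ))
    (kanMul (Prod.map D.σ τ) (extMul F D.σ D.dot τ dact) (extBr F D.σ D.br τ bact))
  unit : ∀ m, dact m D.one = m
  nontriv : Nontrivial M
  irr : ∀ N : Submodule F M, (∀ m ∈ N, τ m ∈ N) → (∀ m ∈ N, ∀ a, dact m a ∈ N) →
    (∀ m ∈ N, ∀ a, bact m a ∈ N) → N = ⊥ ∨ N = ⊤

end Defs

/-! ### The superalgebra `G₁` -/

variable {F : Type*} [Field F]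

/-- grading of `G₁ = F1 ⊕ Fe` and of the module `M = Fp ⊕ Fq` -/
def s (x : F × F) : F × F := (x.1, -x.2)

@[simp] lemma s_apply (x : F × F) : s x = (x.1, -x.2) := rfl

/-- dot product of `G₁` -/
def gdot (x y : F × F) : F × F := (x.1 * y.1, x.1 * y.2 + x.2 * y.1)
/-- bracket of `G₁`: `{e,e} = -1` -/
def gbr (x y : F × F) : F × F := (-(x.2 * y.2), 0)

/-- The dot-bracket superalgebra `G₁` -/
def G (F : Type*) [Field F] : Data (F × F) := ⟨s, gdot, gbr, (1, 0)⟩

/-- the right action of `Kan(G₁)` on `M = Fp ⊕ Fq`: `p·ē = p`, `q·e = -p`, `p·1̄ = q`. -/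
def mact (m : F × F) (x : (F × F) × (F × F)) : F × F :=
  (x.1.1 * m.1 + x.2.2 * m.1 - x.1.2 * m.2, x.1.1 * m.2 + x.2.1 * m.1)

lemma mact_apply (m : F × F) (x : (F × F) × (F × F)) :
    mact m x = (x.1.1 * m.1 + x.2.2 * m.1 - x.1.2 * m.2, x.1.1 * m.2 + x.2.1 * m.1) := rfl

lemma bil_gdot : IsBil F (gdot (F := F)) := by
  refine ⟨fun m => ⟨?_, ?_⟩, fun a => ⟨?_, ?_⟩⟩ <;> intro x y <;> ext <;> simp [gdot] <;> ring

lemma bil_gbr : IsBil F (gbr (F := F)) := by
  refine ⟨fun m => ⟨?_, ?_⟩, fun a => ⟨?_, ?_⟩⟩ <;> intro x y <;> ext <;> simp [gbr] <;> ring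

lemma bil_mact : IsBil F (mact (F := F)) := by
  refine ⟨fun m => ⟨?_, ?_⟩, fun a => ⟨?_, ?_⟩⟩ <;> intro x y <;> ext <;>
    simp [mact] <;> ring

lemma lin_s : IsLinearMap F (s (F := F)) := by
  refine ⟨?_, ?_⟩ <;> intro x y <;> ext <;> simp [s] <;> ring

@[simp] lemma sg_false {A : Type*} [AddCommGroup A] (x : A) : sg false x = x := rfl
@[simp] lemma sg_true {A : Type*} [AddCommGroup A] (x : A) : sg true x = -x := rfl

lemma eq_zero_of_neg (h2 : (2 : F) ≠ 0) {x : F} (h : x = -x) : x = 0 := by
  have : 2 * x = 0 := by linear_combination h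
  rcases mul_eq_zero.1 this with h | h
  · exact absurd h h2
  · exact h

lemma par_s (h2 : (2 : F) ≠ 0) {i : Bool} {x : F × F} (h : Par s i x) :
    (i = false ∧ x.2 = 0) ∨ (i = true ∧ x.1 = 0) := by
  cases i
  · left
    refine ⟨rfl, ?_⟩
    have := congrArg Prod.snd h
    simp at this
    exact eq_zero_of_neg h2 this.symm
  · right
    refine ⟨rfl, ?_⟩
    have := congrArg Prod.fst h
    simp at this
    exact eq_zero_of_neg h2 this

lemma isDotBracket (h2 : (2 : F) ≠ 0) : IsDotBracket (s (F := F)) gdot gbr where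
  invol x := by ext <;> simp
  dot_even x y := by ext <;> simp [gdot]; ring
  br_even x y := by ext <;> simp [gbr]
  assoc x y z := by ext <;> simp [gdot] <;> ring
  comm i j x y hx hy := by
    rcases par_s h2 hx with ⟨rfl, ex⟩ | ⟨rfl, ex⟩ <;>
    rcases par_s h2 hy with ⟨rfl, ey⟩ | ⟨rfl, ey⟩ <;>
    ext <;> simp [gdot, ex, ey] <;> ring
  anti i j x y hx hy := by
    rcases par_s h2 hx with ⟨rfl, ex⟩ | ⟨rfl, ex⟩ <;>
    rcases par_s h2 hy with ⟨rfl, ey⟩ | ⟨rfl, ey⟩ <;>
    ext <;> simp [gbr, ex, ey] <;> ring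

/-- homogeneous elements of `Kan(G₁) ⊕ M` -/
lemma par_ext (h2 : (2 : F) ≠ 0) {i : Bool} {x : ((F × F) × (F × F)) × (F × F)}
    (h : Par (Prod.map (kanσ s) s) i x) :
    (i = false ∧ ∃ a d m : F, x = (((a, 0), (0, d)), (m, 0))) ∨
    (i = true ∧ ∃ b c n : F, x = (((0, b), (c, 0)), (0, n))) := by
  obtain ⟨⟨⟨a, b⟩, ⟨c, d⟩⟩, ⟨m, n⟩⟩ := x
  cases i
  · left
    refine ⟨rfl, a, d, m, ?_⟩
    simp [Par, kanσ] at h
    obtain ⟨⟨h1, h3⟩, h4⟩ := h
    rw [eq_zero_of_neg h2 h1.symm, eq_zero_of_neg h2 h3.symm, eq_zero_of_neg h2 h4.symm]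
  · right
    refine ⟨rfl, b, c, n, ?_⟩
    simp [Par, kanσ] at h
    obtain ⟨⟨h1, h3⟩, h4⟩ := h
    rw [eq_zero_of_neg h2 h1, eq_zero_of_neg h2 h3, eq_zero_of_neg h2 h4]

lemma flip_formula (h2 : (2 : F) ≠ 0) (x : (F × F) × (F × F)) (n : F × F) :
    flipAct F (kanσ s) s mact x n =
      (x.1.1 * n.1 + x.2.2 * n.1 + x.1.2 * n.2, x.1.1 * n.2 + x.2.1 * n.1) := by
  ext <;> simp [flipAct, mact_apply, kanσ] <;> field_simp <;> ring

/-- The product of `Kan(G₁) ⊕ M` in coordinates. -/
lemma ext_formula (h2 : (2 : F) ≠ 0) (x y : ((F × F) × (F × F)) × (F × F)) :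
    extMul F (kanσ s) (kanMul s gdot gbr) s mact x y =
      (((x.1.1.1 * y.1.1.1 + x.1.2.2 * y.1.2.2,
          x.1.1.1 * y.1.1.2 + x.1.1.2 * y.1.1.1),
        (x.1.1.1 * y.1.2.1 + x.1.2.1 * y.1.1.1,
          x.1.1.1 * y.1.2.2 + x.1.1.2 * y.1.2.1 - x.1.2.1 * y.1.1.2 + x.1.2.2 * y.1.1.1)),
       (y.1.1.1 * x.2.1 + y.1.2.2 * x.2.1 - y.1.1.2 * x.2.2 +
          (x.1.1.1 * y.2.1 + x.1.2.2 * y.2.1 + x.1.1.2 * y.2.2),
        y.1.1.1 * x.2.2 + y.1.2.1 * x.2.1 + (x.1.1.1 * y.2.2 + x.1.2.1 * y.2.1))) := by
  rw [extMul, flip_formula h2]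
  ext <;> simp [kanMul, gdot, gbr, mact_apply] <;> ring

lemma isJordan_ext (h2 : (2 : F) ≠ 0) :
    IsJordanSuper (Prod.map (kanσ (s (F := F))) s)
      (extMul F (kanσ s) (kanMul s gdot gbr) s mact) where
  invol x := by ext <;> simp [kanσ]
  even x y := by
    rw [ext_formula h2, ext_formula h2]
    ext <;> simp [kanσ] <;> ring
  comm i j x y hx hy := by
    rw [ext_formula h2, ext_formula h2]
    rcases par_ext h2 hx with ⟨rfl, a, d, m, rfl⟩ | ⟨rfl, a, d, m, rfl⟩ <;>
    rcases par_ext h2 hy with ⟨rfl, a', d', m', rfl⟩ | ⟨rfl, a', d', m', rfl⟩ <;>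
    ext <;> simp <;> ring
  jordan i j k l x y z w hx hy hz hw := by
    simp only [ext_formula h2]
    rcases par_ext h2 hx with ⟨rfl, a, d, m, rfl⟩ | ⟨rfl, a, d, m, rfl⟩ <;>
    rcases par_ext h2 hy with ⟨rfl, a', d', m', rfl⟩ | ⟨rfl, a', d', m', rfl⟩ <;>
    rcases par_ext h2 hz with ⟨rfl, a'', d'', m'', rfl⟩ | ⟨rfl, a'', d'', m'', rfl⟩ <;>
    rcases par_ext h2 hw with ⟨rfl, a3, d3, m3, rfl⟩ | ⟨rfl, a3, d3, m3, rfl⟩ <;>
    simp only [mul_zero, Bool.and_true, Bool.and_false, Bool.xor_false, Bool.xor_true,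
      Bool.false_xor, Bool.true_xor, Bool.not_true, Bool.not_false,
      zero_mul, mul_one, add_zero, zero_add, sg_false, sg_true] <;>
    ext <;> simp <;> ring
  jordan_even x y hx := by
    simp only [ext_formula h2]
    rcases par_ext h2 hx with ⟨_, a, d, m, rfl⟩ | ⟨h, _⟩
    · ext <;> simp <;> ring
    · exact absurd h (by decide)

section Base

variable {A M : Type*} [AddCommGroup A] [Module F A] [AddCommGroup M] [Module F M]

lemma sg_zero {i : Bool} : sg i (0 : M) = 0 := by cases i <;> simp

/-- The base superalgebra of a Jordan supermodule is a Jordan superalgebra. -/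
lemma base_of_ext {σ : A → A} {mul : A → A → A} {τ : M → M} (hτ : τ 0 = 0)
    {act : M → A → M} (h : IsJordanSuper (Prod.map σ τ) (extMul F σ mul τ act)) :
    IsJordanSuper σ mul := by
  have hsg : ∀ i (x : A), (sg i (x, (0 : M))).1 = sg i x := by
    intro i x; cases i <;> simp
  have hsg' : ∀ i (x : A × M), (sg i x).1 = sg i x.1 := by
    intro i x; cases i <;> simp
  have hp : ∀ i x, Par σ i x → Par (Prod.map σ τ) i (x, (0 : M)) := by
    intro i x hx
    have hx' : σ x = sg i x := hx
    cases i <;> simp [Par, hx', hτ]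
  refine ⟨?_, ?_, ?_, ?_, ?_⟩
  · intro x; exact congrArg Prod.fst (h.invol (x, 0))
  · intro x y; exact congrArg Prod.fst (h.even (x, 0) (y, 0))
  · intro i j x y hx hy
    have := congrArg Prod.fst (h.comm i j _ _ (hp i x hx) (hp j y hy))
    rw [hsg'] at this
    exact this
  · intro i j k l a b c d ha hb hc hd
    have := congrArg Prod.fst
      (h.jordan i j k l _ _ _ _ (hp i a ha) (hp j b hb) (hp k c hc) (hp l d hd))
    simp only [Prod.fst_add, hsg'] at this
    exact this
  · intro x y hx
    exact congrArg Prod.fst (h.jordan_even (x, 0) (y, 0) (hp false x hx))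

/-- The dot action of a dot-bracket supermodule is even. -/
lemma dact_even {D : Data A} {τ : M → M} {dact bact : M → A → M}
    (h : IsDBModule F D τ dact bact) (hτ : D.σ 0 = 0)
    (v : M) (b : A) : τ (dact v b) = dact (τ v) (D.σ b) := by
  have h1 := congrArg Prod.snd (h.db.dot_even (0, v) (b, 0))
  have h3 : ∀ v : M, dact v 0 = 0 := fun v => (h.dact_bil.1 v).map_zero
  simpa [extMul, flipAct, hτ, h3] using h1

/-- The bracket action of a dot-bracket supermodule is even. -/
lemma bact_even {D : Data A} {τ : M → M} {dact bact : M → A → M}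
    (h : IsDBModule F D τ dact bact) (hτ : D.σ 0 = 0)
    (v : M) (b : A) : τ (bact v b) = bact (τ v) (D.σ b) := by
  have h1 := congrArg Prod.snd (h.db.br_even (0, v) (b, 0))
  have h3 : ∀ v : M, bact v 0 = 0 := fun v => (h.bact_bil.1 v).map_zero
  simpa [extBr, flipAct, hτ, h3] using h1

lemma tau_invol {D : Data A} {τ : M → M} {dact bact : M → A → M}
    (h : IsDBModule F D τ dact bact) (v : M) : τ (τ v) = v := by
  simpa using congrArg Prod.snd (h.db.invol (0, v))

end Base

lemma simple_g (I : Submodule F (F × F)) (hdot : ∀ x ∈ I, ∀ a, gdot x a ∈ I ∧ gdot a x ∈ I)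
    (hbr : ∀ x ∈ I, ∀ a, gbr x a ∈ I ∧ gbr a x ∈ I) : I = ⊥ ∨ I = ⊤ := by
  by_cases hI : I = ⊥
  · exact Or.inl hI
  · right
    obtain ⟨x, hx, hx0⟩ := (Submodule.ne_bot_iff I).1 hI
    have h1 : ((1 : F), (0 : F)) ∈ I := by
      obtain ⟨a, b⟩ := x
      by_cases ha : a = 0
      · subst ha
        have hb : b ≠ 0 := by
          rintro rfl; exact hx0 rfl
        have := I.smul_mem (-b⁻¹) (hbr _ hx (0, 1)).1
        convert this using 1
        ext <;> simp [gbr, hb]
      · have := (hdot _ hx (a⁻¹, -b * (a⁻¹ * a⁻¹))).1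
        convert this using 1
        ext
        · simp [gdot, ha]
        · simp only [gdot]
          field_simp
          ring
    rw [eq_top_iff]
    intro y _
    have := (hdot _ h1 y).1
    convert this using 1
    ext <;> simp [gdot]

lemma irr_M (h2 : (2 : F) ≠ 0) (N : Submodule F (F × F)) (hs : ∀ m ∈ N, s m ∈ N)
    (hact : ∀ m ∈ N, ∀ a, mact m a ∈ N) : N = ⊥ ∨ N = ⊤ := by
  by_cases hN : N = ⊥
  · exact Or.inl hN
  · right
    obtain ⟨x, hx, hx0⟩ := (Submodule.ne_bot_iff N).1 hN
    obtain ⟨a, b⟩ := x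
    have ha : (a, (0 : F)) ∈ N := by
      have := N.smul_mem (2⁻¹ : F) (N.add_mem hx (hs _ hx))
      convert this using 1
      ext <;> simp; field_simp; norm_num
    have hb : ((0 : F), b) ∈ N := by
      have := N.sub_mem hx ha
      simpa using this
    have hp : ((1 : F), (0 : F)) ∈ N := by
      by_cases h : a = 0
      · have hb0 : b ≠ 0 := by
          rintro rfl; subst h; exact hx0 rfl
        have := N.smul_mem (-b⁻¹) (hact _ hb ((0, 1), (0, 0)))
        convert this using 1
        ext <;> simp [mact_apply, hb0]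
      · have := N.smul_mem a⁻¹ ha
        convert this using 1
        ext <;> simp [h]
    have hq : ((0 : F), (1 : F)) ∈ N := by
      have := hact _ hp ((0, 0), (1, 0))
      convert this using 1
      ext <;> simp [mact_apply]
    rw [eq_top_iff]
    rintro ⟨c, d⟩ _
    have := N.add_mem (N.smul_mem c hp) (N.smul_mem d hq)
    simpa using this

lemma no_iso (h2 : (2 : F) ≠ 0) {V : Type*} [AddCommGroup V] [Module F V] (τ : V → V)
    (dact bact : V → (F × F) → V)
    (hV : IsDBModule F (G F) τ dact bact)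
    (Θ : (F × F) ≃ₗ[F] (V × V))
    (hΘ : ∀ m x, Θ (mact m x) = kanAct s dact bact (Θ m) x) : False := by
  have hfin : Module.Finite F (V × V) := Module.Finite.equiv Θ
  have hfinV : Module.Finite F V :=
    Module.Finite.of_surjective (LinearMap.fst F V V) LinearMap.fst_surjective
  have hrank : Module.finrank F V = 1 := by
    have h1 := Θ.finrank_eq
    rw [Module.finrank_prod, Module.finrank_prod, Module.finrank_self] at h1
    omega
  obtain ⟨v, hv, hspan⟩ := finrank_eq_one_iff'.1 hrank
  obtain ⟨c, hc⟩ := hspan (τ v)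
  have hc2 : c ≠ 0 := by
    rintro rfl
    rw [zero_smul] at hc
    have := tau_invol hV v
    rw [← hc, hV.τ_lin.map_zero] at this
    exact hv this.symm
  have hτ : ∀ w, τ w = c • w := by
    intro w
    obtain ⟨t, ht⟩ := hspan w
    rw [← ht, hV.τ_lin.map_smul, ← hc, smul_comm]
  have hs0 : (G F).σ 0 = 0 := by
    change s (0 : F × F) = 0
    ext <;> simp
  have key : ∀ (act : V → (F × F) → V), IsBil F act →
      (∀ v b, τ (act v b) = act (τ v) (s b)) → ∀ w, act w (0, 1) = 0 := by
    intro act hbil hact w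
    have h1 := hact w (0, 1)
    rw [hτ, hτ] at h1
    have h3 : s ((0 : F), (1 : F)) = -((0 : F), (1 : F)) := by ext <;> simp
    have h5 : act (c • w) (-((0 : F), (1 : F))) = -(c • act w (0, 1)) := by
      have h6 := (hbil.1 (c • w)).map_neg ((0 : F), (1 : F))
      have h7 : act (c • w) (0, 1) = c • act w (0, 1) := (hbil.2 ((0 : F), (1 : F))).map_smul c w
      rw [h6, h7]
    rw [h3, h5] at h1
    have h4 : (2 * c) • act w (0, 1) = 0 := by
      rw [mul_smul, two_smul]
      nth_rewrite 1 [h1]
      simp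
    rcases smul_eq_zero.1 h4 with h5 | h5
    · rcases mul_eq_zero.1 h5 with h6 | h6
      · exact absurd h6 h2
      · exact absurd h6 hc2
    · exact h5
  have hd := key dact hV.dact_bil (dact_even hV hs0)
  have hb := key bact hV.bact_bil (bact_even hV hs0)
  have hd0 : ∀ w, dact w 0 = 0 := fun w => (hV.dact_bil.1 w).map_zero
  have hb' : ∀ w, bact w (-((0 : F), (1 : F))) = 0 := by
    intro w
    rw [(hV.bact_bil.1 w).map_neg, hb, neg_zero]
  have h1 := hΘ (1, 0) ((0, 0), (0, 1))
  have h3 : mact ((1 : F), (0 : F)) (((0 : F), (0 : F)), ((0 : F), (1 : F))) = (1, 0) := by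
    ext <;> simp [mact_apply]
  have h4 : s ((0 : F), (1 : F)) = -((0 : F), (1 : F)) := by ext <;> simp
  have h8 : s (0 : F × F) = 0 := hs0
  have h6 : ((0 : F), (0 : F)) = 0 := rfl
  rw [h3, kanAct] at h1
  simp only [h4, h6, h8, hd0, hd, hb'] at h1
  have h7 : Θ (1, 0) = 0 := by rw [h1]; simp
  rw [LinearEquiv.map_eq_zero_iff] at h7
  exact one_ne_zero (congrArg Prod.fst h7)

/-- **Negative answer to Q1 of MP_ba200f_al**, over every field `F` of characteristic not two.
There are a simple unital dot-bracket superalgebra `A` with a Jordan bracket and a unital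
irreducible Jordan supermodule `M` over `Kan(A)` which is not isomorphic (not even if the
gradings are ignored) to `Kan(V)` for any unital irreducible dot-bracket supermodule `V` over `A`
with a Jordan bracket. -/
theorem result (F : Type u) [Field F] (h2 : (2 : F) ≠ 0) :
    ∃ (A : Type u) (_ : AddCommGroup A) (_ : Module F A) (D : Data A), IsSimpleUnital F D ∧
      ∃ (M : Type u) (_ : AddCommGroup M) (_ : Module F M) (τ : M → M) (act : M → A × A → M),
        IsKanModule F D τ act ∧
        ∀ (V : Type v) [AddCommGroup V] [Module F V] (τV : V → V) (dact bact : V → A → V),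
          IsDBModule F D τV dact bact →
          ¬ ∃ Θ : M ≃ₗ[F] (V × V), ∀ m x, Θ (act m x) = kanAct D.σ dact bact (Θ m) x := by
  have hs0 : s (0 : F × F) = 0 := by ext <;> simp
  refine ⟨F × F, inferInstance, inferInstance, G F, ⟨lin_s, bil_gdot, bil_gbr, isDotBracket h2,
    base_of_ext (F := F) hs0 (isJordan_ext h2), ?_, inferInstanceAs (Nontrivial (F × F)),
    simple_g⟩, F × F, inferInstance, inferInstance, s, mact,
    ⟨lin_s, bil_mact, isJordan_ext h2, ?_, inferInstanceAs (Nontrivial (F × F)), irr_M h2⟩, ?_⟩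
  · intro x
    constructor
    · change gdot (1, 0) x = x
      ext <;> simp [gdot]
    · change gdot x (1, 0) = x
      ext <;> simp [gdot]
  · intro m
    change mact m ((1, 0), 0) = m
    ext <;> simp [mact_apply]
  · rintro V _ _ τV dact bact hV ⟨Θ, hΘ⟩
    exact no_iso h2 τV dact bact hV Θ hΘ

end Pool.Agent.Results.MP_ba200f_al.NotKantorDouble
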